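import Pool.Agent.H933.EP.Stm
import Pool.Agent.H685.LL.Berg

/-!
# P_berg2: an annihilating density from Domar's property (helper401)

Adapted from the module Berg of the project LL (helper685).
-/

set_option autoImplicit false

open MeasureTheory Metric Filter Topology
open scoped Real InnerProductSpace ComplexConjugate ENNReal

noncomputable section

namespace Pool.Agent.H401.EP

open Pool.Agent.H933.LL Pool.Agent.H933.EP
open Pool.Agent.H685.LL (Sub nsq memLp_bdd)

/-- the members of the subspace are bounded on compact sets by their norms -/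
lemma bound {M : ℂ → ℝ} {l : ℂ} {r : ℝ} (hr : 0 < r)
    (hM : ∀ᵐ z ∂(volume.restrict (ball l r)), 1 ≤ M z ∧ 1 ≤ M z * ‖z - l‖)
    (hD : Dom M (ball l r)) :
    ∃ C : ℝ, 0 < C ∧ ∀ (ε : ℝ) (f : Lp ℂ 2 (volume.restrict (ball l r))) (g : ℂ → ℂ), 0 < ε →
      DifferentiableOn ℂ g (ball l r) →
      (f =ᵐ[volume.restrict (ball l r)] fun z => g z * (((M z)⁻¹ : ℝ) : ℂ)) → ‖f‖ ≤ ε →
      ∀ z₀ ∈ closedBall l (r / 2), ‖g z₀‖ ≤ C * ε := by
  obtain ⟨C, hC⟩ := hD 1 (r / 4) (by norm_num) (by positivity)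
  refine ⟨max C 1, lt_max_of_lt_right one_pos, ?_⟩
  intro ε f g hε hg hfg hf z₀ hz₀
  obtain ⟨G, hG⟩ : ∃ G : ℂ → ℂ, G = fun z => ((ε⁻¹ : ℝ) : ℂ) * g z := ⟨_, rfl⟩
  have hsub : closedBall z₀ (r / 4) ⊆ ball l r := by
    intro x hx
    rw [mem_closedBall] at hx hz₀
    rw [mem_ball]
    calc dist x l ≤ dist x z₀ + dist z₀ l := dist_triangle _ _ _
      _ < r := by linarith
  have hGd : DifferentiableOn ℂ G (ball l r) := by
    rw [hG]
    exact hg.const_mul _
  have hfi : Integrable (fun z => (ε⁻¹ * ‖f z‖) ^ 2) (volume.restrict (ball l r)) := by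
    have h1 : Integrable (fun z => ‖f z‖ ^ 2) (volume.restrict (ball l r)) :=
      (Lp.memLp f).integrable_norm_pow (by norm_num)
    have e : (fun z => (ε⁻¹ * ‖f z‖) ^ 2) = fun z => ε⁻¹ ^ 2 * ‖f z‖ ^ 2 := by
      funext z
      rw [mul_pow]
    rw [e]
    exact h1.const_mul _
  have hpt : ∀ᵐ z ∂(volume.restrict (ball l r)),
      ENNReal.ofReal ((‖G z‖ / M z) ^ 2) = ENNReal.ofReal ((ε⁻¹ * ‖f z‖) ^ 2) := by
    filter_upwards [hM, hfg] with z h1 h2
    have hMz : 0 < M z := lt_of_lt_of_le one_pos h1.1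
    have e : ‖G z‖ / M z = ε⁻¹ * ‖f z‖ := by
      rw [h2, hG, norm_mul, norm_mul, Complex.norm_real, Complex.norm_real,
        Real.norm_of_nonneg (by positivity), Real.norm_of_nonneg (by positivity)]
      field_simp
    rw [e]
  have hle : ∫⁻ z in ball z₀ (r / 4), ENNReal.ofReal ((‖G z‖ / M z) ^ 2) ≤ ENNReal.ofReal 1 := by
    have hb : ball z₀ (r / 4) ⊆ ball l r := ball_subset_closedBall.trans hsub
    calc ∫⁻ z in ball z₀ (r / 4), ENNReal.ofReal ((‖G z‖ / M z) ^ 2)
        ≤ ∫⁻ z in ball l r, ENNReal.ofReal ((‖G z‖ / M z) ^ 2) := lintegral_mono_set hb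
      _ = ∫⁻ z in ball l r, ENNReal.ofReal ((ε⁻¹ * ‖f z‖) ^ 2) := lintegral_congr_ae hpt
      _ = ENNReal.ofReal (∫ z in ball l r, (ε⁻¹ * ‖f z‖) ^ 2) :=
          (ofReal_integral_eq_lintegral_ofReal hfi (Eventually.of_forall fun z => sq_nonneg _)).symm
      _ ≤ ENNReal.ofReal 1 := by
          refine ENNReal.ofReal_le_ofReal ?_
          have e : (fun z => (ε⁻¹ * ‖f z‖) ^ 2) = fun z => ε⁻¹ ^ 2 * ‖f z‖ ^ 2 := by
            funext z
            rw [mul_pow]
          rw [e, integral_const_mul, ← nsq, ← mul_pow]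
          refine pow_le_one₀ (by positivity) ?_
          rw [inv_mul_le_iff₀ hε, mul_one]
          exact hf
  have h4 := hC G (ball l r) z₀ isOpen_ball hsub hsub hGd hle
  rw [hG, norm_mul, Complex.norm_real, Real.norm_of_nonneg (by positivity)] at h4
  rw [inv_mul_le_iff₀ hε] at h4
  calc ‖g z₀‖ ≤ ε * C := h4
    _ ≤ ε * max C 1 := mul_le_mul_of_nonneg_left (le_max_left _ _) hε.le
    _ = max C 1 * ε := mul_comm _ _

/-- **P_berg2** -/
theorem p_berg2 : P_berg2 := by
  intro M l r hr hMm hM hDom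
  obtain ⟨m0, hm0e⟩ : ∃ m0 : ℝ, m0 = 1 := ⟨_, rfl⟩
  have hm0 : 0 < m0 := by rw [hm0e]; norm_num
  obtain ⟨C, hC, hbd⟩ := bound hr hM hDom
  rw [← hm0e] at hM
  have hMi : AEStronglyMeasurable (fun z => (((M z)⁻¹ : ℝ) : ℂ)) (volume.restrict (ball l r)) :=
    (Complex.measurable_ofReal.comp_aemeasurable hMm.inv).aestronglyMeasurable
  -- the function `k`
  have hkm : AEStronglyMeasurable (fun z => (z - l)⁻¹ * (((M z)⁻¹ : ℝ) : ℂ))
      (volume.restrict (ball l r)) := by
    refine AEStronglyMeasurable.mul ?_ hMi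
    exact (measurable_id.sub_const l).inv.aestronglyMeasurable
  have hk : MemLp (fun z => (z - l)⁻¹ * (((M z)⁻¹ : ℝ) : ℂ)) 2 (volume.restrict (ball l r)) := by
    refine memLp_bdd (C := 1) hkm ?_
    filter_upwards [hM] with z hz
    have hMz : 0 < M z := lt_of_lt_of_le hm0 hz.1
    have hzl : 0 < ‖z - l‖ := by
      by_contra hcon
      have : ‖z - l‖ = 0 := le_antisymm (not_lt.1 hcon) (norm_nonneg _)
      rw [this, mul_zero] at hz
      linarith [hz.2]
    rw [norm_mul, norm_inv, Complex.norm_real, Real.norm_of_nonneg (by positivity), ← mul_inv]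
    refine inv_le_one_of_one_le₀ ?_
    rw [mul_comm]
    linarith [hz.2, hm0e]
  obtain ⟨k, hkdef⟩ : ∃ k : Lp ℂ 2 (volume.restrict (ball l r)), k = hk.toLp := ⟨_, rfl⟩
  have hkz : k =ᵐ[volume.restrict (ball l r)] fun z => (z - l)⁻¹ * (((M z)⁻¹ : ℝ) : ℂ) := by
    rw [hkdef]
    exact hk.coeFn_toLp
  -- it is not in the closure
  have hnot : k ∉ (Sub M l r).topologicalClosure := by
    intro hmem
    have hmem' : k ∈ closure (Sub M l r : Set (Lp ℂ 2 (volume.restrict (ball l r)))) := hmem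
    obtain ⟨f, hfA, hfk⟩ := mem_closure_iff_seq_limit.1 hmem'
    choose g hg hfg using hfA
    obtain ⟨ns, hns, hae⟩ := (tendstoInMeasure_of_tendsto_Lp hfk).exists_seq_tendsto_ae
    obtain ⟨ε, hε⟩ : ∃ ε, ε = ‖k‖ + 1 := ⟨_, rfl⟩
    have hε0 : 0 < ε := by
      rw [hε]; positivity
    have hev : ∀ᶠ n in atTop, ‖f n‖ ≤ ε := by
      have h1 : ∀ᶠ n in atTop, ‖f n‖ < ‖k‖ + 1 := hfk.norm.eventually (gt_mem_nhds (lt_add_one _))
      filter_upwards [h1] with n hn
      rw [hε]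
      exact hn.le
    have hev2 : ∀ᶠ j in atTop, ‖f (ns j)‖ ≤ ε := hns.tendsto_atTop.eventually hev
    have hall : ∀ᵐ z ∂(volume.restrict (ball l r)), ∀ n, f n z = g n z * (((M z)⁻¹ : ℝ) : ℂ) :=
      ae_all_iff.2 fun n => hfg n
    -- the bound for `1 / (z - l)`
    have hfin : ∀ᵐ z ∂(volume.restrict (ball l r)), z ∈ closedBall l (r / 2) →
        z ≠ l ∧ ‖(z - l)⁻¹‖ ≤ C * ε := by
      filter_upwards [hae, hall, hM, hkz] with z h1 h2 h3 h4 h5
      have hMz : 0 < M z := lt_of_lt_of_le hm0 h3.1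
      refine ⟨?_, ?_⟩
      · rintro rfl
        rw [sub_self, norm_zero, mul_zero] at h3
        linarith [h3.2]
      · rw [h4] at h1
        have h6 : Tendsto (fun j => ‖g (ns j) z‖ * (M z)⁻¹) atTop (𝓝 (‖(z - l)⁻¹‖ * (M z)⁻¹)) := by
          have h7 := h1.norm
          rw [norm_mul, Complex.norm_real, Real.norm_of_nonneg (inv_nonneg.2 hMz.le)] at h7
          refine h7.congr fun j => ?_
          rw [h2, norm_mul, Complex.norm_real, Real.norm_of_nonneg (inv_nonneg.2 hMz.le)]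
        have h7 : ‖(z - l)⁻¹‖ * (M z)⁻¹ ≤ C * ε * (M z)⁻¹ := by
          refine le_of_tendsto h6 ?_
          filter_upwards [hev2] with j hj
          exact mul_le_mul_of_nonneg_right (hbd ε (f (ns j)) (g (ns j)) hε0 (hg _) (hfg _) hj z h5)
            (inv_nonneg.2 hMz.le)
        exact le_of_mul_le_mul_right h7 (inv_pos.2 hMz)
    -- a small ball
    obtain ⟨δ, hδ⟩ : ∃ δ, δ = min (r / 2) (C * ε + 1)⁻¹ := ⟨_, rfl⟩
    have hCε : 0 < C * ε + 1 := by positivity
    have hδ0 : 0 < δ := by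
      rw [hδ]
      exact lt_min (by positivity) (inv_pos.2 hCε)
    have hsub : ball l δ ⊆ ball l r := ball_subset_ball (by
      rw [hδ]
      exact (min_le_left _ _).trans (by linarith))
    have hfalse : ∀ᵐ z ∂(volume.restrict (ball l δ)), False := by
      filter_upwards [ae_restrict_of_ae_restrict_of_subset hsub hfin,
        ae_restrict_mem measurableSet_ball] with z h1 h2
      rw [mem_ball, dist_eq_norm] at h2
      have h3 : z ∈ closedBall l (r / 2) := by
        rw [mem_closedBall, dist_eq_norm]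
        exact h2.le.trans (by rw [hδ]; exact min_le_left _ _)
      obtain ⟨h4, h5⟩ := h1 h3
      have h6 : 0 < ‖z - l‖ := norm_pos_iff.2 (sub_ne_zero.2 h4)
      have h7 : ‖z - l‖ < (C * ε + 1)⁻¹ := lt_of_lt_of_le h2 (by rw [hδ]; exact min_le_right _ _)
      rw [norm_inv] at h5
      have h8 : C * ε + 1 < ‖z - l‖⁻¹ := (lt_inv_comm₀ hCε h6).2 h7
      linarith
    rw [Filter.eventually_false_iff_eq_bot, ae_eq_bot, Measure.restrict_eq_zero] at hfalse
    exact (measure_ball_pos volume l hδ0).ne' hfalse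
  -- the annihilating function
  rw [← Submodule.orthogonal_orthogonal_eq_closure, Submodule.mem_orthogonal] at hnot
  push Not at hnot
  obtain ⟨f₀, hf₀, hne⟩ := hnot
  rw [Submodule.mem_orthogonal'] at hf₀
  -- the inner products
  have hip : ∀ (u : Lp ℂ 2 (volume.restrict (ball l r))) (g : ℂ → ℂ),
      (u =ᵐ[volume.restrict (ball l r)] fun z => g z * (((M z)⁻¹ : ℝ) : ℂ)) →
      ∫ z in ball l r, (conj (f₀ z) * (((M z)⁻¹ : ℝ) : ℂ)) * g z = ⟪f₀, u⟫_ℂ := by
    intro u g hu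
    rw [L2.inner_def]
    refine integral_congr_ae ?_
    filter_upwards [hu] with z hz
    rw [hz, RCLike.inner_apply]
    ring
  have hf₀i : Integrable (fun z => ‖f₀ z‖) (volume.restrict (ball l r)) :=
    ((Lp.memLp f₀).integrable (by norm_num)).norm
  have hhm : AEStronglyMeasurable (fun z => conj (f₀ z) * (((M z)⁻¹ : ℝ) : ℂ))
      (volume.restrict (ball l r)) := by
    refine AEStronglyMeasurable.mul ?_ hMi
    exact Complex.continuous_conj.comp_aestronglyMeasurable (Lp.aestronglyMeasurable f₀)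
  refine ⟨fun z => conj (f₀ z) * (((M z)⁻¹ : ℝ) : ℂ), hhm, ?_, ?_, ?_, ?_⟩
  · refine Integrable.mono' (hf₀i.const_mul m0⁻¹) hhm ?_
    filter_upwards [hM] with z hz
    have hMz : 0 < M z := lt_of_lt_of_le hm0 hz.1
    rw [norm_mul, Complex.norm_real, Real.norm_of_nonneg (inv_nonneg.2 hMz.le), RCLike.norm_conj,
      mul_comm]
    exact mul_le_mul_of_nonneg_right (inv_anti₀ hm0 hz.1) (norm_nonneg _)
  · refine Integrable.congr hf₀i ?_
    filter_upwards [hM] with z hz
    have hMz : 0 < M z := lt_of_lt_of_le hm0 hz.1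
    rw [norm_mul, Complex.norm_real, Real.norm_of_nonneg (inv_nonneg.2 hMz.le), RCLike.norm_conj]
    field_simp
  · intro g hg ⟨B, hB⟩
    have hgm : AEStronglyMeasurable (fun z => g z * (((M z)⁻¹ : ℝ) : ℂ))
        (volume.restrict (ball l r)) :=
      (hg.continuousOn.aestronglyMeasurable measurableSet_ball).mul hMi
    have hgL : MemLp (fun z => g z * (((M z)⁻¹ : ℝ) : ℂ)) 2 (volume.restrict (ball l r)) := by
      refine memLp_bdd (C := |B| * m0⁻¹) hgm ?_
      filter_upwards [hM, ae_restrict_mem measurableSet_ball] with z hz hzb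
      have hMz : 0 < M z := lt_of_lt_of_le hm0 hz.1
      rw [norm_mul, Complex.norm_real, Real.norm_of_nonneg (inv_nonneg.2 hMz.le)]
      exact mul_le_mul ((hB z hzb).trans (le_abs_self B)) (inv_anti₀ hm0 hz.1)
        (inv_nonneg.2 hMz.le) (abs_nonneg _)
    rw [hip hgL.toLp g hgL.coeFn_toLp]
    exact hf₀ _ ⟨g, hg, hgL.coeFn_toLp⟩
  · rw [hip k (fun z => (z - l)⁻¹) hkz]
    exact hne

end Pool.Agent.H401.EP
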